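import Pool.Agent.H8.DS.TarG

/-!
`ds_modules` [HEND]: a point with a first return does not run into an end point, and dually.
-/

namespace DS

open Set Data

namespace H3Hend

variable {C S : Type}

theorem onEnd_onSlit (X : Data C S) (c : C) (w : ℝ × ℝ) (h : X.OnEnd c w) : X.OnSlit c w := by
  obtain ⟨s, hs, g, hg, h1 | h1⟩ := h
  · exact ⟨s, hs, g, hg, 0, ⟨le_refl _, zero_le_one⟩, h1⟩
  · exact ⟨s, hs, g, hg, 1, ⟨zero_le_one, le_refl _⟩, h1⟩

theorem fwd_inj (t h : ℝ) (a b : ℝ × ℝ) (e : fwd t a h = fwd t b h) : a = b := by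
  unfold fwd at e
  have e1 := congrArg Prod.fst e
  have e2 := congrArg Prod.snd e
  simp only at e1 e2
  exact Prod.ext (by linarith) (by linarith)

/-- An interior point of a slit is not an end point. -/
theorem not_end (h1 : T_SLU) (X : Data C S) (hX : X.Surface) (c : C) (s : S) (hs : X.comp s = c)
    (g : ℝ × ℝ × ℝ) (hg : g ∈ X.deck c) (ξ : ℝ) (hξ : ξ ∈ Ioo (0 : ℝ) 1) :
    ¬ X.OnEnd c (act g (X.pt s ξ)) := by
  rintro ⟨s', hs', g', hg', e | e⟩
  · subst hs
    have := h1 C S X hX s s' hs'.symm g hg g' hg' ξ ⟨hξ.1.le, hξ.2.le⟩ 0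
      ⟨le_refl _, zero_le_one⟩ e
    have h3 := this.2.2
    have := hξ.1
    linarith
  · subst hs
    have := h1 C S X hX s s' hs'.symm g hg g' hg' ξ ⟨hξ.1.le, hξ.2.le⟩ 1
      ⟨zero_le_one, le_refl _⟩ e
    have h3 := this.2.2
    have := hξ.2
    linarith

end H3Hend

theorem pf_HEND (h1 : T_SLU) (h2 : T_EQV) : T_HEND := by
  intro C S X hX t y y' hit
  obtain ⟨hy, hy', hc, g, hg, h, hh, hcl, he⟩ := hit
  have hg' : g ∈ X.deck (X.comp (X.glue y.1)) := by rw [← hc]; exact hg
  have hsl : X.OnSlit (X.comp (X.glue y.1)) (fwd t (X.pt (X.glue y.1) y.2) h) :=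
    ⟨y'.1, hc, g, hg', y'.2, ⟨hy'.1.le, hy'.2.le⟩, he⟩
  constructor
  · rintro ⟨h', hh', hcl', hend⟩
    rcases lt_trichotomy h' h with hlt | heq | hgt
    · exact (hcl h' hh' hlt).1 (H3Hend.onEnd_onSlit X _ _ hend)
    · subst heq
      rw [he] at hend
      exact H3Hend.not_end h1 X hX _ y'.1 hc g hg' y'.2 hy' hend
    · exact (hcl' h hh hgt).1 hsl
  · rintro ⟨z', h', hh', hend, hcl', he'⟩
    have hgp : 0 < g.1 := deck_pos X hX _ g hg
    have hgi : ginv g ∈ X.deck (X.comp y'.1) := deck_inv X hX _ g hg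
    have hH : 0 < (ginv g).1 * h := mul_pos (by simpa [ginv] using hgp) hh
    have hcl1 : X.Clear t (X.comp y'.1) (act (ginv g) (X.pt (X.glue y.1) y.2))
        ((ginv g).1 * h) := by
      rw [(h2 C S X hX _ _ hgi _).2.2.2.2 t h, hc]
      exact hcl
    have he1 : fwd t (act (ginv g) (X.pt (X.glue y.1) y.2)) ((ginv g).1 * h) =
        X.pt y'.1 y'.2 := by
      rw [← act_fwd, he, act_ginv g hgp.ne']
    have hz1 : X.OnSlit (X.comp y'.1) (act (ginv g) (X.pt (X.glue y.1) y.2)) :=
      ⟨X.glue y.1, hc.symm, ginv g, hgi, y.2, ⟨hy.1.le, hy.2.le⟩, rfl⟩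
    generalize hHdef : (ginv g).1 * h = H at *
    rcases lt_trichotomy h' H with hlt | heq | hgt
    · have e : fwd t (act (ginv g) (X.pt (X.glue y.1) y.2)) (H - h') = z' := by
        apply H3Hend.fwd_inj t h'
        rw [fwd_add, sub_add_cancel, he1, he']
      have := (hcl1 (H - h') (by linarith) (by linarith)).1
      rw [e] at this
      exact this (H3Hend.onEnd_onSlit X _ _ hend)
    · subst heq
      have e : act (ginv g) (X.pt (X.glue y.1) y.2) = z' := by
        apply H3Hend.fwd_inj t h'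
        rw [he1, he']
      rw [← e] at hend
      exact H3Hend.not_end h1 X hX _ (X.glue y.1) hc.symm (ginv g) hgi y.2 hy hend
    · have e : fwd t z' (h' - H) = act (ginv g) (X.pt (X.glue y.1) y.2) := by
        apply H3Hend.fwd_inj t H
        rw [fwd_add, sub_add_cancel, he1, he']
      have := (hcl' (h' - H) (by linarith) (by linarith)).1
      rw [e] at this
      exact this hz1

end DS
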