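import Pool.Agent.H8.DS.TarG

/-!
`ds_modules` [OPEN]: the first return relation is locally affine.
-/

namespace DS

open Set Data

namespace H3Open

variable {C S : Type}

theorem act_ne_zero (X : Data C S) (hX : X.Surface) (c : C) (hc : X.Hopf c) (g : ℝ × ℝ × ℝ)
    (hg : g ∈ X.deck c) (w : ℝ × ℝ) (hw : w ≠ 0) : act g w ≠ 0 := by
  intro h0
  apply hw
  have hgp := deck_pos X hX c g hg
  obtain ⟨k, rfl⟩ := hg
  unfold Data.Hopf at hc
  cases hk : X.kind c with
  | flat e f => rw [hk] at hc; exact absurd hc id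
  | hopf l =>
    rw [hk] at h0 hgp
    simp only [Comp.el, act] at h0 hgp
    have e1 := congrArg Prod.fst h0
    have e2 := congrArg Prod.snd h0
    simp only [add_zero, Prod.fst_zero, Prod.snd_zero] at e1 e2
    refine Prod.ext ?_ ?_
    · exact (mul_eq_zero.1 e1).resolve_left hgp.ne'
    · exact (mul_eq_zero.1 e2).resolve_left hgp.ne'

end H3Open

theorem pf_OPEN (h1 : T_TUBE) : T_OPEN := by
  intro C S _ X hX t y y' hit
  obtain ⟨hy, hy', hc, g, hg, h, hh, hcl, he⟩ := hit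
  have hgp : 0 < g.1 := deck_pos X hX _ g hg
  have hL : 0 < X.len (X.glue y.1) := hX.pos _
  have hL' : 0 < g.1 * X.len y'.1 := mul_pos hgp (hX.pos _)
  obtain ⟨ε₀, hε₀, htube⟩ := h1 C S X hX t (X.comp (X.glue y.1)) (X.pt (X.glue y.1) y.2) h
    (fun hopf => by
      refine ⟨hX.origin _ hopf _ ⟨hy.1.le, hy.2.le⟩, ?_⟩
      rw [he]
      rw [← hc] at hopf
      exact H3Open.act_ne_zero X hX _ hopf g hg _ (hX.origin _ hopf _ ⟨hy'.1.le, hy'.2.le⟩)) hcl
  set L := X.len (X.glue y.1) with hLdef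
  set L' := g.1 * X.len y'.1 with hLdef'
  have hα : 0 < L / L' := div_pos hL hL'
  refine ⟨L / L', hα, min (ε₀ / L) (min (min y.2 (1 - y.2))
    (min (y'.2 / (L / L')) ((1 - y'.2) / (L / L')))), ?_, ?_⟩
  · have a1 := hy.1
    have a2 : 0 < 1 - y.2 := by linarith [hy.2]
    have a3 := hy'.1
    have a4 : 0 < 1 - y'.2 := by linarith [hy'.2]
    refine lt_min (div_pos hε₀ hL) (lt_min (lt_min a1 a2) (lt_min (div_pos a3 hα)
      (div_pos a4 hα)))
  · intro δ hδ
    rw [lt_min_iff, lt_min_iff, lt_min_iff, lt_min_iff] at hδ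
    obtain ⟨b1, ⟨b2, b3⟩, b4, b5⟩ := hδ
    rw [lt_div_iff₀ hL] at b1
    rw [lt_div_iff₀ hα] at b4 b5
    have b6 : |L / L' * δ| = |δ| * (L / L') := by
      rw [abs_mul, abs_of_pos hα, mul_comm]
    rw [← b6] at b4 b5
    rw [abs_lt] at b2 b3 b4 b5
    have b1' : |δ * L| < ε₀ := by rw [abs_mul, abs_of_pos hL]; exact b1
    refine ⟨⟨by linarith [b2.1], by linarith [b3.2]⟩, ⟨by linarith [b4.1], by linarith [b5.2]⟩,
      hc, g, hg, h, hh, ?_, ?_⟩
    · have e : X.pt (X.glue y.1) (y.2 + δ) =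
          ((X.pt (X.glue y.1) y.2).1 + δ * L, (X.pt (X.glue y.1) y.2).2) := by
        simp only [Data.pt]
        refine Prod.ext ?_ rfl
        simp only [hLdef]
        ring
      show X.Clear t (X.comp (X.glue y.1)) (X.pt (X.glue y.1) (y.2 + δ)) h
      rw [e]
      exact htube _ b1'
    · have e1 := congrArg Prod.fst he
      have e2 := congrArg Prod.snd he
      simp only [fwd, act, Data.pt] at e1 e2 ⊢
      refine Prod.ext ?_ e2
      show X.a (X.glue y.1) + (y.2 + δ) * X.len (X.glue y.1) + t * h =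
        g.1 * (X.a y'.1 + (y'.2 + L / L' * δ) * X.len y'.1) + g.2.1
      have e3 : L / L' * (g.1 * X.len y'.1) = L := by
        rw [← hLdef']
        exact div_mul_cancel₀ _ hL'.ne'
      have e4 : L / L' * δ * X.len y'.1 * g.1 = δ * L := by
        calc L / L' * δ * X.len y'.1 * g.1 = δ * (L / L' * (g.1 * X.len y'.1)) := by ring
          _ = δ * L := by rw [e3]
      rw [← hLdef] at e1 ⊢
      linarith [e1, e4]

end DS
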